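import Pool.Agent.H490Z.GC.Shell

set_option autoImplicit false

namespace Pool.Agent.H490Z.GC

section toolkit

variable {α β γ : Type} [Primcodable α] [Primcodable β] [Primcodable γ]

attribute [fun_prop] Primrec

@[fun_prop] theorem p_id : Primrec (fun a : α => a) := Primrec.id
@[fun_prop] theorem p_const (b : β) : Primrec (fun _ : α => b) := Primrec.const b
@[fun_prop] theorem p_comp {f : β → γ} {g : α → β} (hf : Primrec f) (hg : Primrec g) :
    Primrec (fun a => f (g a)) := hf.comp hg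
@[fun_prop] theorem p_pair {f : α → β} {g : α → γ} (hf : Primrec f) (hg : Primrec g) :
    Primrec (fun a => (f a, g a)) := hf.pair hg
@[fun_prop] theorem p_fst {f : α → β × γ} (hf : Primrec f) : Primrec (fun a => (f a).1) :=
  Primrec.fst.comp hf
@[fun_prop] theorem p_snd {f : α → β × γ} (hf : Primrec f) : Primrec (fun a => (f a).2) :=
  Primrec.snd.comp hf
@[fun_prop] theorem p_add {f g : α → ℕ} (hf : Primrec f) (hg : Primrec g) :
    Primrec (fun a => f a + g a) := Primrec.nat_add.comp hf hg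
@[fun_prop] theorem p_sub {f g : α → ℕ} (hf : Primrec f) (hg : Primrec g) :
    Primrec (fun a => f a - g a) := Primrec.nat_sub.comp hf hg
@[fun_prop] theorem p_mul {f g : α → ℕ} (hf : Primrec f) (hg : Primrec g) :
    Primrec (fun x => f x * g x) := Primrec.nat_mul.comp hf hg
@[fun_prop] theorem p_div {f g : α → ℕ} (hf : Primrec f) (hg : Primrec g) :
    Primrec (fun x => f x / g x) := Primrec.nat_div.comp hf hg
@[fun_prop] theorem p_mod {f g : α → ℕ} (hf : Primrec f) (hg : Primrec g) :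
    Primrec (fun x => f x % g x) := Primrec.nat_mod.comp hf hg
@[fun_prop] theorem p_min {f g : α → ℕ} (hf : Primrec f) (hg : Primrec g) :
    Primrec (fun x => min (f x) (g x)) := Primrec.nat_min.comp hf hg
@[fun_prop] theorem p_pow {f g : α → ℕ} (hf : Primrec f) (hg : Primrec g) :
    Primrec (fun x => f x ^ g x) := (Primrec₂.unpaired'.1 Nat.Primrec.pow).comp hf hg
@[fun_prop] theorem p_unpair {f : α → ℕ} (hf : Primrec f) :
    Primrec (fun a => (f a).unpair) := Primrec.unpair.comp hf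
@[fun_prop] theorem p_natPair {f g : α → ℕ} (hf : Primrec f) (hg : Primrec g) :
    Primrec (fun a => Nat.pair (f a) (g a)) := Primrec₂.natPair.comp hf hg

theorem pp_lt {f g : α → ℕ} (hf : Primrec f) (hg : Primrec g) :
    PrimrecPred (fun a => f a < g a) := Primrec.nat_lt.comp hf hg
theorem pp_le {f g : α → ℕ} (hf : Primrec f) (hg : Primrec g) :
    PrimrecPred (fun a => f a ≤ g a) := Primrec.nat_le.comp hf hg
theorem pp_eq {f g : α → ℕ} (hf : Primrec f) (hg : Primrec g) :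
    PrimrecPred (fun a => f a = g a) := Primrec.eq.comp hf hg
theorem pp_ne {f g : α → ℕ} (hf : Primrec f) (hg : Primrec g) :
    PrimrecPred (fun a => f a ≠ g a) := (pp_eq hf hg).not
theorem pp_imp {p q : α → Prop} (hp : PrimrecPred p) (hq : PrimrecPred q) :
    PrimrecPred (fun a => p a → q a) := (hp.not.or hq).of_eq fun a => by tauto
theorem pp_bit {f g : α → ℕ} (hf : Primrec f) (hg : Primrec g) :
    PrimrecPred fun x => (f x).testBit (g x) = true :=
  (pp_eq (f := fun x => f x / 2 ^ g x % 2) (g := fun _ => 1) (by fun_prop) (by fun_prop)).of_eq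
    fun x => by rw [Nat.testBit_eq_decide_div_mod_eq, decide_eq_true_eq]
theorem pp_all {f : α → ℕ} {r : α → ℕ → Prop} (hf : Primrec f)
    (hr : PrimrecPred fun x : α × ℕ => r x.1 x.2) : PrimrecPred fun x => ∀ y < f x, r x y := by
  have h : PrimrecRel fun (y : ℕ) (x : α) => r x y := PrimrecRel.swap (r := r) hr
  exact (h.forall_mem_list.comp (Primrec.list_range.comp hf) Primrec.id).of_eq (by simp)
theorem pp_ex {f : α → ℕ} {r : α → ℕ → Prop} (hf : Primrec f)
    (hr : PrimrecPred fun x : α × ℕ => r x.1 x.2) : PrimrecPred fun x => ∃ y < f x, r x y := by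
  have h : PrimrecRel fun (y : ℕ) (x : α) => r x y := PrimrecRel.swap (r := r) hr
  exact (h.exists_mem_list.comp (Primrec.list_range.comp hf) Primrec.id).of_eq (by simp)

theorem re_ex {r : α → ℕ → Prop} (hr : PrimrecPred fun x : α × ℕ => r x.1 x.2) :
    REPred fun x => ∃ y, r x y := by
  classical
  have h : Partrec (fun x => Nat.rfind fun n => Part.some (decide (r x n))) :=
    Partrec.rfind hr.computablePred.decide.partrec
  exact h.dom_re.of_eq fun x => Nat.rfind_dom.trans ⟨fun ⟨n, h1, _⟩ => ⟨n, by simpa using h1⟩,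
    fun ⟨n, h1⟩ => ⟨n, by simpa using h1, fun _ => trivial⟩⟩

/-- entries of a coded list -/
def nth (m l : ℕ) : ℕ := (Denumerable.ofNat (List ℕ) m).getD l 0
/-- length of a coded list -/
def len (m : ℕ) : ℕ := (Denumerable.ofNat (List ℕ) m).length

@[fun_prop] theorem p_nth {f g : α → ℕ} (hf : Primrec f) (hg : Primrec g) :
    Primrec (fun a => nth (f a) (g a)) :=
  (Primrec.list_getD 0).comp ((Primrec.ofNat (List ℕ)).comp hf) hg
@[fun_prop] theorem p_len {f : α → ℕ} (hf : Primrec f) : Primrec (fun a => len (f a)) :=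
  Primrec.list_length.comp ((Primrec.ofNat (List ℕ)).comp hf)

lemma code_ext {m m' : ℕ} (h : len m = len m') (h2 : ∀ l < len m, nth m l = nth m' l) :
    m = m' := by
  have : Denumerable.ofNat (List ℕ) m = Denumerable.ofNat (List ℕ) m' := by
    refine List.ext_getElem h fun l h1 h1' => ?_
    have := h2 l h1
    unfold nth at this
    rwa [List.getD_eq_getElem _ _ h1, List.getD_eq_getElem _ _ h1'] at this
  rw [← Denumerable.encode_ofNat (α := List ℕ) m, this, Denumerable.encode_ofNat]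

lemma code_exists (k : ℕ) (h : ℕ → ℕ) : ∃ m, len m = k ∧ ∀ l < k, nth m l = h l := by
  refine ⟨Encodable.encode ((List.range k).map h), by simp [len], fun l hl => ?_⟩
  simp [nth, List.getD_eq_getElem?_getD, hl]

/-- scaled shell margin -/
def shN (j K t : ℕ) : ℕ := if j = 0 then t else min (t - 2 ^ (K - j)) (2 * 2 ^ (K - j) - t)

/-- scaled running margin -/
def GN (m z K k : ℕ) : ℕ :=
  Nat.rec (2 ^ K) (fun l g => shN (nth m l / 3) K (min g (nth z l))) k

@[fun_prop] theorem p_shN {f g h : α → ℕ} (hf : Primrec f) (hg : Primrec g) (hh : Primrec h) :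
    Primrec (fun a => shN (f a) (g a) (h a)) :=
  Primrec.ite (pp_eq hf (by fun_prop)) hh (by fun_prop)

@[fun_prop] theorem p_GN {f g h k : α → ℕ} (hf : Primrec f) (hg : Primrec g) (hh : Primrec h)
    (hk : Primrec k) : Primrec (fun a => GN (f a) (g a) (h a) (k a)) :=
  Primrec.nat_rec' (h := fun a p => shN (nth (f a) p.1 / 3) (h a) (min p.2 (nth (g a) p.1))) hk
    (by fun_prop) (by unfold Primrec₂; fun_prop)

/-- the code of a shifted rational cut -/
def atm (l p n M : ℕ) : ℕ := Nat.pair l.unpair.1 (Nat.pair (Nat.pair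
  (l.unpair.2.unpair.1.unpair.1 * M + p * (l.unpair.2.unpair.2 + 1))
  (l.unpair.2.unpair.1.unpair.2 * M + n * (l.unpair.2.unpair.2 + 1)))
  ((l.unpair.2.unpair.2 + 1) * M - 1))

@[fun_prop] theorem p_atm {f g h k : α → ℕ} (hf : Primrec f) (hg : Primrec g) (hh : Primrec h)
    (hk : Primrec k) : Primrec (fun a => atm (f a) (g a) (h a) (k a)) := by
  unfold atm; fun_prop

end toolkit

/-- a certificate for an approximation of a margin -/
def Cert (P : ℕ → Prop) (l s z M : ℕ) : Prop :=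
  (s = 0 → z = M) ∧ (s = 1 → P (2 * atm l (z + 1) 0 M + 1) ∧ (z = 0 ∨ P (2 * atm l z 1 M))) ∧
  (s = 2 → P (2 * atm l 0 (z + 1) M) ∧ (z = 0 ∨ P (2 * atm l 1 z M + 1)))

/-- a certificate for being outside the closed set with code `m` -/
def ND (P : ℕ → Prop) (m w : ℕ) : Prop :=
  (∃ l < len m, nth m l % 3 = 0 ∧ (P (2 * l) ∨ P (2 * l + 1))) ∨
  ((∀ l < len m, nth m l / 3 ≤ w.unpair.1 ∧
      Cert P l (nth m l % 3) (nth w.unpair.2 l) (2 ^ w.unpair.1)) ∧
    (min (GN m w.unpair.2 w.unpair.1 (len m - 1)) (nth w.unpair.2 (len m - 1)) + 1 <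
        2 ^ (w.unpair.1 - nth m (len m - 1) / 3) ∨
      2 * 2 ^ (w.unpair.1 - nth m (len m - 1) / 3) + 1 <
        min (GN m w.unpair.2 w.unpair.1 (len m - 1)) (nth w.unpair.2 (len m - 1))))

/-- the enumeration operator for the complement of the graph -/
def WW (b n : ℕ) (P : ℕ → Prop) (y w : ℕ) : Prop :=
  (y.unpair.2 = 0 ∧ P y.unpair.1) ∨ (y.unpair.2 ≠ 0 ∧
    (¬ (0 < len (y.unpair.2 - 1) ∧
        Val b n (y.unpair.1 / 2) (nth (y.unpair.2 - 1)) (len (y.unpair.2 - 1) - 1)) ∨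
      nth (y.unpair.2 - 1) (y.unpair.1 / 2) % 3 ≠ y.unpair.1 % 2 + 1 ∨ ND P (y.unpair.2 - 1) w))

lemma pp_WW (b n : ℕ) : PrimrecPred fun x : (ℕ × ℕ) × ℕ =>
    WW b n (fun i => x.1.2.testBit i = true) x.1.1 x.2 := by
  unfold WW ND Cert Val Pre
  repeat' first
    | with_reducible refine PrimrecPred.or ?_ ?_
    | with_reducible refine PrimrecPred.and ?_ ?_
    | with_reducible refine pp_bit ?_ ?_
    | with_reducible refine pp_eq ?_ ?_
    | with_reducible refine pp_ne ?_ ?_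
    | with_reducible refine pp_le ?_ ?_
    | with_reducible refine pp_lt ?_ ?_
    | with_reducible refine PrimrecPred.not ?_
    | with_reducible refine pp_all ?_ ?_
    | with_reducible refine pp_ex ?_ ?_
    | with_reducible refine pp_imp ?_ ?_
  all_goals fun_prop

lemma WW_mono {b n : ℕ} {P P' : ℕ → Prop} (h : ∀ i, P i → P' i) {y w : ℕ} (hw : WW b n P y w) :
    WW b n P' y w := by
  refine hw.imp (And.imp_right (h _)) (And.imp_right (Or.imp_right (Or.imp_right ?_)))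
  refine Or.imp (fun ⟨l, h1, h2, h3⟩ => ⟨l, h1, h2, h3.imp (h _) (h _)⟩)
    (And.imp_left fun h1 l hl => ⟨(h1 l hl).1, (h1 l hl).2.1, fun hs => ?_, fun hs => ?_⟩)
  · exact ((h1 l hl).2.2.1 hs).imp (h _) (Or.imp_right (h _))
  · exact ((h1 l hl).2.2.2 hs).imp (h _) (Or.imp_right (h _))

open Filter in
lemma WW_fin {b n : ℕ} {P : ℕ → Prop} {y w : ℕ} (hw : WW b n P y w) :
    ∀ᶠ B in atTop, WW b n (fun i => i < B ∧ P i) y w := by
  have a : ∀ i, P i → ∀ᶠ B in atTop, i < B ∧ P i :=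
    fun i hi => (eventually_gt_atTop i).mono fun B hB => ⟨hB, hi⟩
  have a2 : ∀ (p : Prop) i, p ∨ P i → ∀ᶠ B in atTop, p ∨ (i < B ∧ P i) := by
    rintro p i (h | h)
    · exact Eventually.of_forall fun _ => Or.inl h
    · exact (a i h).mono fun _ => Or.inr
  rcases hw with ⟨h1, h2⟩ | ⟨h1, h2 | h2 | ⟨l, h2, h3, h4 | h4⟩ | ⟨h2, h3⟩⟩
  · exact (a _ h2).mono fun B hB => Or.inl ⟨h1, hB⟩
  · exact Eventually.of_forall fun B => Or.inr ⟨h1, Or.inl h2⟩
  · exact Eventually.of_forall fun B => Or.inr ⟨h1, Or.inr (Or.inl h2)⟩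
  · exact (a _ h4).mono fun B hB => Or.inr ⟨h1, Or.inr (Or.inr (Or.inl ⟨l, h2, h3, Or.inl hB⟩))⟩
  · exact (a _ h4).mono fun B hB => Or.inr ⟨h1, Or.inr (Or.inr (Or.inl ⟨l, h2, h3, Or.inr hB⟩))⟩
  · have : ∀ᶠ B in atTop, ∀ l ∈ Set.Iio (len (y.unpair.2 - 1)), Cert (fun i => i < B ∧ P i) l
        (nth (y.unpair.2 - 1) l % 3) (nth w.unpair.2 l) (2 ^ w.unpair.1) := by
      refine (eventually_all_finite (Set.finite_Iio _)).2 fun l hl => ?_
      obtain ⟨-, c1, c2, c3⟩ := h2 l hl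
      refine (Eventually.of_forall fun _ => c1).and (Eventually.and ?_ ?_)
      · exact eventually_imp_distrib_left.2 fun hs => (a _ (c2 hs).1).and (a2 _ _ (c2 hs).2)
      · exact eventually_imp_distrib_left.2 fun hs => (a _ (c3 hs).1).and (a2 _ _ (c3 hs).2)
    exact this.mono fun B hB =>
      Or.inr ⟨h1, Or.inr (Or.inr (Or.inr ⟨fun l hl => ⟨(h2 l hl).1, hB l hl⟩, h3⟩))⟩

lemma exists_bits (P : ℕ → Prop) (B : ℕ) : ∃ u : ℕ, ∀ i, u.testBit i = true ↔ i < B ∧ P i := by
  classical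
  refine ⟨Nat.ofBits (fun i : Fin B => decide (P i)), fun i => ?_⟩
  rw [Nat.testBit_ofBits]
  split_ifs with h <;> simp [h]

lemma re_WW (b n : ℕ) (A N : Set ℕ) (h : ∀ y, y ∈ A ↔ ∃ w, WW b n (· ∈ N) y w) :
    ∃ W : ℕ × ℕ → Prop, REPred W ∧
      ∀ y : ℕ, y ∈ A ↔ ∃ u : ℕ, W (y, u) ∧ ∀ i : ℕ, u.testBit i = true → i ∈ N := by
  refine ⟨fun x => ∃ w, WW b n (fun i => x.2.testBit i = true) x.1 w, re_ex (pp_WW b n),
    fun y => (h y).trans ⟨fun ⟨w, hw⟩ => ?_, fun ⟨u, ⟨w, hw⟩, hu⟩ => ⟨w, WW_mono hu hw⟩⟩⟩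
  obtain ⟨B, hB⟩ := (WW_fin hw).exists
  obtain ⟨u, hu⟩ := exists_bits (· ∈ N) B
  exact ⟨u, ⟨w, WW_mono (fun i => (hu i).2) hB⟩, fun i hi => ((hu i).1 hi).2⟩

end Pool.Agent.H490Z.GC
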