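import Pool.Agent.H490Z.GC.Comp

set_option autoImplicit false

namespace Pool.Agent.H490Z.GC

lemma pow_rr {j K : ℕ} (h : j ≤ K) : ((2 ^ (K - j) : ℕ) : ℝ) = 2 ^ K * rr j := by
  obtain ⟨d, rfl⟩ := Nat.exists_eq_add_of_le h
  simp only [Nat.add_sub_cancel_left, rr, pow_add, one_div, inv_pow]
  push_cast
  field_simp

lemma cast_tsub (a b : ℕ) : ((a - b : ℕ) : ℝ) = max ((a : ℝ) - b) 0 := by
  rcases le_total a b with h | h
  · rw [Nat.sub_eq_zero_of_le h, max_eq_right (sub_nonpos.2 (by exact_mod_cast h)), Nat.cast_zero]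
  · rw [Nat.cast_sub h, max_eq_left (sub_nonneg.2 (by exact_mod_cast h))]

lemma cast_shN {j K : ℕ} (h : j ≤ K) (t : ℕ) :
    (shN j K t : ℝ) = 2 ^ K * sh j ((t : ℝ) / 2 ^ K) := by
  have hM : (0 : ℝ) < 2 ^ K := by positivity
  unfold shN sh
  split_ifs
  · field_simp
  · rw [Nat.cast_min, cast_tsub, cast_tsub, Nat.cast_mul, pow_rr h, mul_min_of_nonneg _ _ hM.le,
      mul_max_of_nonneg _ _ hM.le, mul_max_of_nonneg _ _ hM.le]
    simp only [mul_zero, mul_sub, mul_div_cancel₀ _ hM.ne', Nat.cast_ofNat, mul_left_comm]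

lemma cast_GN {m z K : ℕ} (k : ℕ) (h : ∀ l < k, nth m l / 3 ≤ K) :
    (GN m z K k : ℝ) / 2 ^ K = G (fun l => nth m l / 3) (fun l => (nth z l : ℝ) / 2 ^ K) k := by
  have hM : (0 : ℝ) < 2 ^ K := by positivity
  induction k with
  | zero => simp [GN, G]
  | succ k ih =>
    have e : GN m z K (k + 1) = shN (nth m k / 3) K (min (GN m z K k) (nth z k)) := rfl
    rw [e, cast_shN (h k (by omega)), G, ← ih fun l hl => h l (by omega), Nat.cast_min,
      min_div_div_right hM.le, mul_div_cancel_left₀ _ hM.ne']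

lemma H_approx {μ : ℕ → ℝ} {m z K k : ℕ} (h : ∀ l ≤ k, nth m l / 3 ≤ K ∧
      |mar (nth m l % 3) (μ l) - (nth z l : ℝ) / 2 ^ K| ≤ 1 / 2 ^ K) :
    |H μ (nth m) k * 2 ^ K - (min (GN m z K k) (nth z k) : ℕ)| ≤ 1 := by
  have hM : (0 : ℝ) < 2 ^ K := by positivity
  have h1 : |H μ (nth m) k - (min (GN m z K k) (nth z k) : ℕ) / 2 ^ K| ≤ 1 / 2 ^ K := by
    rw [Nat.cast_min, ← min_div_div_right hM.le, cast_GN k fun l hl => (h l hl.le).1]
    exact (abs_min_sub_min_le_max _ _ _ _).trans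
      (max_le (G_lip (by positivity) k fun l hl => (h l hl.le).2) (h k le_rfl).2)
  rw [le_div_iff₀ hM, ← abs_of_pos hM, ← abs_mul, abs_of_pos hM, sub_mul,
    div_mul_cancel₀ _ hM.ne'] at h1
  exact h1

section main

variable {μ : ℕ → ℝ} {N : Set ℕ} (h0 : ∀ l, 2 * l ∈ N ↔ 0 < μ l) (h1 : ∀ l, 2 * l + 1 ∈ N ↔ μ l < 0)
  (h2 : ∀ l p n K, μ (atm l p n (2 ^ K)) = μ l - ((p : ℝ) - n) / 2 ^ K)

include h0 h1 h2

lemma cert_sound {l s z K : ℕ} (hs : s < 3) (h : Cert (· ∈ N) l s z (2 ^ K)) :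
    |mar s (μ l) - (z : ℝ) / 2 ^ K| ≤ 1 / 2 ^ K := by
  have hM : (0 : ℝ) < 2 ^ K := by positivity
  have hz : (0 : ℝ) ≤ z / 2 ^ K := by positivity
  have hi : (0 : ℝ) < 1 / 2 ^ K := by positivity
  obtain ⟨c1, c2, c3⟩ := h
  simp only [h0, h1, h2, Nat.cast_add, Nat.cast_one, Nat.cast_zero, sub_div, add_div,
    zero_div] at c2 c3
  rw [abs_le]
  interval_cases s
  · rw [c1 rfl]; simp [mar]
  · obtain ⟨d1, d2⟩ := c2 rfl
    simp only [mar, one_ne_zero, if_false, if_true]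
    refine ⟨?_, ?_⟩
    · rcases d2 with rfl | d2
      · simp only [Nat.cast_zero, zero_div]; linarith [le_max_right (μ l) 0]
      · linarith [le_max_left (μ l) 0]
    · rcases le_total (μ l) 0 with h | h
      · rw [max_eq_right h]; linarith
      · rw [max_eq_left h]; linarith
  · obtain ⟨d1, d2⟩ := c3 rfl
    simp only [mar, OfNat.ofNat_ne_zero, OfNat.ofNat_ne_one, if_false]
    refine ⟨?_, ?_⟩
    · rcases d2 with rfl | d2
      · simp only [Nat.cast_zero, zero_div]; linarith [le_max_right (-μ l) 0]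
      · linarith [le_max_left (-μ l) 0]
    · rcases le_total (-μ l) 0 with h | h
      · rw [max_eq_right h]; linarith
      · rw [max_eq_left h]; linarith

lemma cert_complete (l s K : ℕ) : ∃ z, Cert (· ∈ N) l s z (2 ^ K) := by
  have hM : (0 : ℝ) < 2 ^ K := by positivity
  have key : ∀ t : ℝ, ∃ z : ℕ, t < (z + 1) / 2 ^ K ∧ (z = 0 ∨ (z - 1) / 2 ^ K < t) := by
    intro t
    refine ⟨⌊t * 2 ^ K⌋₊, (lt_div_iff₀ hM).2 (Nat.lt_floor_add_one _), ?_⟩
    rcases le_total (t * 2 ^ K) 0 with h | h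
    · exact Or.inl (Nat.floor_of_nonpos h)
    · exact Or.inr ((div_lt_iff₀ hM).2 (by linarith [Nat.floor_le h]))
  unfold Cert
  simp only [h0, h1, h2, Nat.cast_add, Nat.cast_one, Nat.cast_zero]
  by_cases s0 : s = 0
  · exact ⟨2 ^ K, fun _ => rfl, by omega, by omega⟩
  by_cases s1 : s = 1
  · obtain ⟨z, a1, a2⟩ := key (μ l)
    exact ⟨z, by omega, fun _ => ⟨by rw [sub_zero]; linarith, a2.imp_right fun h => by linarith⟩,
      by omega⟩
  · obtain ⟨z, a1, a2⟩ := key (-μ l)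
    refine ⟨z, by omega, by omega, fun _ => ⟨?_, a2.imp_right fun h => ?_⟩⟩
    · rw [zero_sub, neg_div]; linarith
    · rw [← neg_sub (z : ℝ), neg_div]; linarith

lemma ND_iff {m : ℕ} (hm : 0 < len m) :
    (∃ w, ND (· ∈ N) m w) ↔ ¬ InD μ (nth m) (len m - 1) := by
  constructor
  · rintro ⟨w, ⟨l, a1, a2, a3⟩ | ⟨a1, a2⟩⟩ ⟨b1, b2, b3⟩
    · have := b1 l (by omega) a2
      simp only [h0, h1, this, lt_self_iff_false, or_self] at a3
    · have hM : (0 : ℝ) < 2 ^ w.unpair.1 := by positivity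
      have c := abs_le.1 (H_approx (μ := μ) (k := len m - 1) fun l hl => ⟨(a1 l (by omega)).1,
        cert_sound h0 h1 h2 (Nat.mod_lt _ (by norm_num)) (a1 l (by omega)).2⟩)
      have e := pow_rr (a1 (len m - 1) (by omega)).1
      rcases a2 with a2 | a2
      · have a3 := (Nat.cast_lt (α := ℝ)).2 a2
        rw [e, Nat.cast_add, Nat.cast_one] at a3
        nlinarith [c.2]
      · have a3 := (Nat.cast_lt (α := ℝ)).2 a2
        rw [Nat.cast_add, Nat.cast_mul, e, Nat.cast_one, Nat.cast_ofNat] at a3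
        nlinarith [c.1]
  · intro h
    by_cases hc : ∃ l < len m, nth m l % 3 = 0 ∧ μ l ≠ 0
    · obtain ⟨l, a1, a2, a3⟩ := hc
      exact ⟨0, Or.inl ⟨l, a1, a2, by simpa only [h0, h1] using (lt_or_gt_of_ne a3).symm⟩⟩
    push Not at hc
    obtain ⟨δ, hδ, hδ2⟩ : ∃ δ > 0, H μ (nth m) (len m - 1) + δ ≤ rr (nth m (len m - 1) / 3) ∨
        2 * rr (nth m (len m - 1) / 3) + δ ≤ H μ (nth m) (len m - 1) := by
      rcases lt_or_ge (H μ (nth m) (len m - 1)) (rr (nth m (len m - 1) / 3)) with a | a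
      · exact ⟨_, sub_pos.2 a, Or.inl (by linarith)⟩
      · have b := not_le.1 fun b => h ⟨fun l hl => hc l (by omega), a, b⟩
        exact ⟨_, sub_pos.2 b, Or.inr (by linarith)⟩
    obtain ⟨K0, hK0⟩ := pow_unbounded_of_one_lt (2 / δ) (show (1 : ℝ) < 2 by norm_num)
    obtain ⟨K1, hK1⟩ := (Set.finite_Iio (len m)).image (fun l => nth m l / 3) |>.bddAbove
    set K := K0 + K1
    have hM : (0 : ℝ) < 2 ^ K := by positivity
    have hK : 2 < δ * 2 ^ K := by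
      rw [div_lt_iff₀' hδ] at hK0
      exact hK0.trans_le (mul_le_mul_of_nonneg_left
        (pow_le_pow_right₀ (by norm_num) (by omega)) hδ.le)
    choose z hz using fun l => cert_complete h0 h1 h2 l (nth m l % 3) K
    obtain ⟨c, -, hc2⟩ := code_exists (len m) z
    have a1 : ∀ l < len m, nth m l / 3 ≤ K ∧ Cert (· ∈ N) l (nth m l % 3) (nth c l) (2 ^ K) :=
      fun l hl => ⟨(hK1 ⟨l, hl, rfl⟩).trans (by omega), hc2 l hl ▸ hz l⟩
    have d := abs_le.1 (H_approx (μ := μ) (k := len m - 1) fun l hl => ⟨(a1 l (by omega)).1,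
        cert_sound h0 h1 h2 (Nat.mod_lt _ (by norm_num)) (a1 l (by omega)).2⟩)
    have e := pow_rr (a1 (len m - 1) (by omega)).1
    refine ⟨Nat.pair K c, Or.inr ?_⟩
    simp only [Nat.unpair_pair]
    refine ⟨a1, hδ2.imp (fun a => ?_) fun a => ?_⟩
    · refine (Nat.cast_lt (α := ℝ)).1 ?_
      rw [e, Nat.cast_add, Nat.cast_one]
      nlinarith [d.1]
    · refine (Nat.cast_lt (α := ℝ)).1 ?_
      rw [Nat.cast_add, Nat.cast_mul, e, Nat.cast_one, Nat.cast_ofNat]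
      nlinarith [d.2]

lemma exists_fun : ∃ f : ℕ → ℕ, (∀ e, e ∈ N ↔ f e ≠ 0) ∧ ∃ b n, ∀ y,
    f y.unpair.1 ≠ y.unpair.2 ↔ ∃ w, WW b n (· ∈ N) y w := by
  classical
  obtain ⟨b, n, hv⟩ := val_exists μ
  have hle : ∀ {l h k}, Val b n l h k → l ≤ k := fun h => by
    rcases h with h | h <;> omega
  have hv2 : ∀ l, ∃ m, 0 < len m ∧ Val b n l (nth m) (len m - 1) ∧ InD μ (nth m) (len m - 1) := by
    intro l
    obtain ⟨h, k, a1, a2⟩ := hv l
    obtain ⟨m, b1, b2⟩ := code_exists (k + 1) h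
    have e : nth m k = h k := b2 k (by omega)
    have hP : ∀ i, Pre i h k → Pre i (nth m) k := fun i hi l hl => b2 l (by omega) ▸ hi l hl
    refine ⟨m, by omega, ?_, ?_⟩ <;> rw [b1, Nat.add_sub_cancel]
    · unfold Val
      rw [e]
      exact a1.imp (And.imp_right (And.imp_left (hP _))) (And.imp_right (And.imp_left (hP _)))
    · unfold InD
      rw [e, H_congr (fun l hl => b2 l (by omega)) (by rw [e])]
      exact ⟨fun l hl => b2 l (by omega) ▸ a2.1 l hl, a2.2⟩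
  choose c c1 c2 c3 using hv2
  have hu : ∀ l m, 0 < len m → Val b n l (nth m) (len m - 1) → InD μ (nth m) (len m - 1) →
      m = c l := by
    intro l m a1 a2 a3
    obtain ⟨b1, b2⟩ := val_unique a2 (c2 l) a3 (c3 l)
    have := c1 l
    exact code_ext (by omega) fun i hi => b2 i (by omega)
  have hs : ∀ e, e ∈ N ↔ nth (c (e / 2)) (e / 2) % 3 = e % 2 + 1 := by
    intro e
    have a := (c3 (e / 2)).sign (hle (c2 (e / 2)))
    rcases Nat.mod_two_eq_zero_or_one e with he | he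
    · rw [show e ∈ N ↔ 2 * (e / 2) ∈ N by rw [show 2 * (e / 2) = e by omega], h0, he]
      rcases a with a | a | a <;> simp [a.1, a.2, a.2.le]
    · rw [show e ∈ N ↔ 2 * (e / 2) + 1 ∈ N by rw [show 2 * (e / 2) + 1 = e by omega], h1, he]
      rcases a with a | a | a <;> simp [a.1, a.2, a.2.le]
  refine ⟨fun e => if e ∈ N then c (e / 2) + 1 else 0, fun e => by by_cases h : e ∈ N <;> simp [h],
    b, n, fun y => ?_⟩
  generalize hy1 : y.unpair.1 = e
  generalize hy2 : y.unpair.2 = v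
  unfold WW
  rw [hy1, hy2]
  rcases v with _ | m
  · by_cases h : e ∈ N <;> simp [h]
  · simp only [Nat.add_sub_cancel, Nat.succ_ne_zero, false_and, false_or, ne_eq,
      not_false_eq_true, true_and, exists_or, exists_const]
    constructor
    · intro h
      by_contra hcon
      simp only [not_or, not_not] at hcon
      obtain ⟨⟨a1, a2⟩, a3, a4⟩ := hcon
      obtain rfl := hu _ m a1 a2 (not_not.1 (mt (ND_iff h0 h1 h2 a1).2 a4))
      exact h (if_pos ((hs e).2 a3))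
    · intro h h'
      by_cases he : e ∈ N
      · rw [if_pos he] at h'
        obtain rfl : c (e / 2) = m := by omega
        rcases h with h | h | h
        · exact h ⟨c1 _, c2 _⟩
        · exact h ((hs e).1 he)
        · exact (ND_iff h0 h1 h2 (c1 _)).1 h (c3 _)
      · rw [if_neg he] at h'
        omega

lemma both : ∃ f : ℕ → ℕ,
    (∃ W : ℕ × ℕ → Prop, REPred W ∧ ∀ y : ℕ, y ∈ N ↔ ∃ u : ℕ, W (y, u) ∧
      ∀ i : ℕ, u.testBit i = true → i ∈ {k : ℕ | f (Nat.unpair k).1 ≠ (Nat.unpair k).2}) ∧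
    ∃ W : ℕ × ℕ → Prop, REPred W ∧ ∀ y : ℕ,
      y ∈ {k : ℕ | f (Nat.unpair k).1 ≠ (Nat.unpair k).2} ↔ ∃ u : ℕ, W (y, u) ∧
        ∀ i : ℕ, u.testBit i = true → i ∈ N := by
  obtain ⟨f, a1, b, n, a2⟩ := exists_fun h0 h1 h2
  refine ⟨f, ⟨fun x => x.2.testBit (Nat.pair x.1 0) = true,
    (pp_bit (by fun_prop) (by fun_prop)).computablePred.to_re, fun y => ⟨fun hy => ?_, ?_⟩⟩,
    re_WW b n _ N a2⟩
  · refine ⟨2 ^ Nat.pair y 0, Nat.testBit_two_pow_self, fun i hi => ?_⟩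
    obtain rfl : Nat.pair y 0 = i := by simpa [Nat.testBit_two_pow] using hi
    simpa using (a1 y).1 hy
  · rintro ⟨u, b1, b2⟩
    exact (a1 y).2 (by simpa using b2 _ b1)

end main

/-- the margin of a point at a coded rational cut -/
noncomputable def mu (x : ℕ → ℝ) (l : ℕ) : ℝ := x l.unpair.1 -
  ((l.unpair.2.unpair.1.unpair.1 : ℝ) - l.unpair.2.unpair.1.unpair.2) / (l.unpair.2.unpair.2 + 1)

lemma mu_atm (x : ℕ → ℝ) (l p n K : ℕ) :
    mu x (atm l p n (2 ^ K)) = mu x l - ((p : ℝ) - n) / 2 ^ K := by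
  simp only [mu, atm, Nat.unpair_pair]
  rw [Nat.cast_sub (Nat.succ_le_of_lt (by positivity))]
  push_cast
  field_simp
  ring

lemma mem_cut (x : ℕ → ℝ) (l : ℕ) :
    (2 * l ∈ {k : ℕ | ∃ n a b c : ℕ,
      (k = 2 * Nat.pair n (Nat.pair (Nat.pair a b) c) ∧ ((a:ℝ) - (b:ℝ)) / ((c:ℝ) + 1) < x n) ∨
      (k = 2 * Nat.pair n (Nat.pair (Nat.pair a b) c) + 1 ∧
        x n < ((a:ℝ) - (b:ℝ)) / ((c:ℝ) + 1))} ↔ 0 < mu x l) ∧
    (2 * l + 1 ∈ {k : ℕ | ∃ n a b c : ℕ,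
      (k = 2 * Nat.pair n (Nat.pair (Nat.pair a b) c) ∧ ((a:ℝ) - (b:ℝ)) / ((c:ℝ) + 1) < x n) ∨
      (k = 2 * Nat.pair n (Nat.pair (Nat.pair a b) c) + 1 ∧
        x n < ((a:ℝ) - (b:ℝ)) / ((c:ℝ) + 1))} ↔ mu x l < 0) := by
  refine ⟨⟨?_, fun h => ?_⟩, ⟨?_, fun h => ?_⟩⟩
  · rintro ⟨n, a, b, c, ⟨h1, h2⟩ | ⟨h1, h2⟩⟩
    · obtain rfl : l = Nat.pair n (Nat.pair (Nat.pair a b) c) := by omega
      simpa [mu] using h2
    · omega
  · exact ⟨l.unpair.1, l.unpair.2.unpair.1.unpair.1, l.unpair.2.unpair.1.unpair.2,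
      l.unpair.2.unpair.2, Or.inl ⟨by simp, sub_pos.1 h⟩⟩
  · rintro ⟨n, a, b, c, ⟨h1, h2⟩ | ⟨h1, h2⟩⟩
    · omega
    · obtain rfl : l = Nat.pair n (Nat.pair (Nat.pair a b) c) := by omega
      simpa [mu] using h2
  · exact ⟨l.unpair.1, l.unpair.2.unpair.1.unpair.1, l.unpair.2.unpair.1.unpair.2,
      l.unpair.2.unpair.2, Or.inr ⟨by simp, sub_neg.1 h⟩⟩

end Pool.Agent.H490Z.GC
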