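import Mathlib

set_option autoImplicit false

namespace Pool.Agent.H490Z.GC

/-- the margin of a sign decision -/
noncomputable def mar (s : ℕ) (t : ℝ) : ℝ := if s = 0 then 1 else if s = 1 then max t 0 else max (-t) 0

/-- the radii of the shells -/
noncomputable def rr (j : ℕ) : ℝ := (1 / 2) ^ j

/-- the margin inside the shell number `j` -/
noncomputable def sh (j : ℕ) (t : ℝ) : ℝ :=
  if j = 0 then t else min (max (t - rr j) 0) (max (2 * rr j - t) 0)

/-- the running margin -/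
noncomputable def G (j : ℕ → ℕ) (a : ℕ → ℝ) : ℕ → ℝ
  | 0 => 1
  | l + 1 => sh (j l) (min (G j a l) (a l))

/-- the running margin of a history -/
noncomputable def H (μ : ℕ → ℝ) (h : ℕ → ℕ) (k : ℕ) : ℝ :=
  min (G (fun l => h l / 3) (fun l => mar (h l % 3) (μ l)) k) (mar (h k % 3) (μ k))

/-- membership in the closed set with history `h` up to level `k` -/
def InD (μ : ℕ → ℝ) (h : ℕ → ℕ) (k : ℕ) : Prop :=
  (∀ l ≤ k, h l % 3 = 0 → μ l = 0) ∧ rr (h k / 3) ≤ H μ h k ∧ H μ h k ≤ 2 * rr (h k / 3)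

/-- no shells below level `n`, even shells from level `n` on -/
def Pre (n : ℕ) (h : ℕ → ℕ) (k : ℕ) : Prop :=
  ∀ l < k, (l < n → h l / 3 = 0) ∧ (n ≤ l → h l / 3 ≠ 0 ∧ h l / 3 % 2 = 0)

lemma rr_pos (j : ℕ) : 0 < rr j := by unfold rr; positivity

lemma rr_succ (j : ℕ) : 2 * rr (j + 1) = rr j := by unfold rr; ring

lemma rr_anti {i j : ℕ} (h : i ≤ j) : rr j ≤ rr i :=
  pow_le_pow_of_le_one (by norm_num) (by norm_num) h

lemma sh_lip (j : ℕ) (t u : ℝ) : |sh j t - sh j u| ≤ |t - u| := by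
  unfold sh
  split_ifs
  · exact le_rfl
  · refine (abs_min_sub_min_le_max _ _ _ _).trans (max_le ?_ ?_)
    · refine (abs_max_sub_max_le_abs _ _ _).trans (le_of_eq ?_)
      congr 1; ring
    · refine (abs_max_sub_max_le_abs _ _ _).trans (le_of_eq ?_)
      rw [← abs_neg]; congr 1; ring

lemma G_lip {j : ℕ → ℕ} {a b : ℕ → ℝ} {ε : ℝ} (hε : 0 ≤ ε) (k : ℕ)
    (h : ∀ l < k, |a l - b l| ≤ ε) : |G j a k - G j b k| ≤ ε := by
  induction k with
  | zero => simpa [G] using hε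
  | succ k ih =>
    exact (sh_lip _ _ _).trans ((abs_min_sub_min_le_max _ _ _ _).trans
      (max_le (ih fun l hl => h l (by omega)) (h k (by omega))))

lemma G_congr {j j' : ℕ → ℕ} {a a' : ℕ → ℝ} (k : ℕ) (h : ∀ l < k, j l = j' l ∧ a l = a' l) :
    G j a k = G j' a' k := by
  induction k with
  | zero => rfl
  | succ k ih => rw [G, G, ih fun l hl => h l (by omega), (h k (by omega)).1, (h k (by omega)).2]

lemma H_congr {μ : ℕ → ℝ} {h h' : ℕ → ℕ} {k : ℕ} (h1 : ∀ l < k, h l = h' l)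
    (h2 : h k % 3 = h' k % 3) : H μ h k = H μ h' k := by
  unfold H
  rw [h2, G_congr k (j' := fun l => h' l / 3) (a' := fun l => mar (h' l % 3) (μ l))
    fun l hl => by simp only [h1 l hl, and_self]]

lemma sh_pos {j : ℕ} {t : ℝ} (h : 0 < sh j t) : 0 < t ∧ (j ≠ 0 → rr j < t ∧ t < 2 * rr j) := by
  unfold sh at h
  split_ifs at h with hj
  · exact ⟨h, fun h' => absurd hj h'⟩
  · have := rr_pos j
    simp only [lt_min_iff, lt_max_iff, lt_self_iff_false, or_false] at h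
    exact ⟨by linarith [h.1], fun _ => ⟨by linarith [h.1], by linarith [h.2]⟩⟩

lemma sh_le {j : ℕ} {t : ℝ} (h : 0 ≤ t) : sh j t ≤ t := by
  unfold sh
  split_ifs
  · exact le_rfl
  · exact (min_le_left _ _).trans (max_le (by linarith [rr_pos j]) h)

lemma H_succ (μ : ℕ → ℝ) (h : ℕ → ℕ) (k : ℕ) : H μ h (k + 1) ≤ sh (h k / 3) (H μ h k) :=
  min_le_left _ _

lemma H_pos {μ : ℕ → ℝ} {h : ℕ → ℕ} {k : ℕ} (hk : 0 < H μ h k) {l : ℕ} (hl : l ≤ k) :
    0 < H μ h l := by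
  induction k, hl using Nat.le_induction with
  | base => exact hk
  | succ k _ ih => exact ih (sh_pos (hk.trans_le (H_succ μ h k))).1

lemma InD.pos {μ : ℕ → ℝ} {h : ℕ → ℕ} {k : ℕ} (hD : InD μ h k) {l : ℕ} (hl : l ≤ k) :
    0 < H μ h l := H_pos ((rr_pos _).trans_le hD.2.1) hl

lemma InD.sign {μ : ℕ → ℝ} {h : ℕ → ℕ} {k : ℕ} (hD : InD μ h k) {l : ℕ} (hl : l ≤ k) :
    (h l % 3 = 0 ∧ μ l = 0) ∨ (h l % 3 = 1 ∧ 0 < μ l) ∨ (h l % 3 = 2 ∧ μ l < 0) := by
  have h1 : 0 < mar (h l % 3) (μ l) := (hD.pos hl).trans_le (min_le_right _ _)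
  have h2 : h l % 3 = 0 ∨ h l % 3 = 1 ∨ h l % 3 = 2 := by omega
  rcases h2 with h2 | h2 | h2
  · exact Or.inl ⟨h2, hD.1 l hl h2⟩
  · exact Or.inr (Or.inl ⟨h2, by simpa [mar, h2] using h1⟩)
  · exact Or.inr (Or.inr ⟨h2, by simpa [mar, h2] using h1⟩)

lemma shell_close {i j : ℕ} {t : ℝ} (h1 : rr i ≤ t) (h2 : t ≤ 2 * rr j) : j ≤ i + 1 := by
  by_contra h
  have := rr_anti (show i + 2 ≤ j by omega)
  have := rr_succ (i + 1)
  have := rr_succ i
  have := rr_pos i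
  linarith

lemma shell_close' {i j : ℕ} {t : ℝ} (h1 : rr i ≤ t) (h2 : t ≤ 2 * rr j)
    (h3 : rr i < t ∨ t < 2 * rr j) : j ≤ i := by
  by_contra h
  have := rr_anti (show i + 1 ≤ j by omega)
  have := rr_succ i
  rcases h3 with h3 | h3 <;> linarith

lemma sign_eq {μ : ℕ → ℝ} {h h' : ℕ → ℕ} {k k' : ℕ} (hD : InD μ h k) (hD' : InD μ h' k')
    {l : ℕ} (hl : l ≤ k) (hl' : l ≤ k') : h l % 3 = h' l % 3 := by
  rcases hD.sign hl with a | a | a <;> rcases hD'.sign hl' with b | b | b <;>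
    first | omega | (exfalso; linarith [a.2, b.2])

lemma agree {μ : ℕ → ℝ} {n : ℕ} {h h' : ℕ → ℕ} {k k' : ℕ} (hD : InD μ h k) (hD' : InD μ h' k')
    (hP : Pre n h k) (hP' : Pre n h' k') : ∀ l, l < k → l < k' → h l = h' l := by
  intro l
  induction l using Nat.strong_induction_on with
  | _ l ih =>
    intro hl hl'
    have e1 := sign_eq hD hD' hl.le hl'.le
    have e2 : H μ h l = H μ h' l := H_congr (fun i hi => ih i hi (by omega) (by omega)) e1
    rcases lt_or_ge l n with hn | hn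
    · have := (hP l hl).1 hn
      have := (hP' l hl').1 hn
      omega
    · obtain ⟨a1, a2⟩ := (sh_pos ((hD.pos hl).trans_le (H_succ μ h l))).2 ((hP l hl).2 hn).1
      obtain ⟨b1, b2⟩ := (sh_pos ((hD'.pos hl').trans_le (H_succ μ h' l))).2 ((hP' l hl').2 hn).1
      rw [← e2] at b1 b2
      have := shell_close' a1.le b2.le (Or.inl a1)
      have := shell_close' b1.le a2.le (Or.inl b1)
      omega

lemma last_eq {μ : ℕ → ℝ} {n : ℕ} {h h' : ℕ → ℕ} {k : ℕ} (hD : InD μ h k) (hD' : InD μ h' k)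
    (hP : Pre n h k) (hP' : Pre n h' k) (hp : h k / 3 % 2 = h' k / 3 % 2) :
    ∀ l ≤ k, h l = h' l := by
  intro l hl
  rcases hl.lt_or_eq with hl | rfl
  · exact agree hD hD' hP hP' l hl hl
  · have e1 := sign_eq hD hD' le_rfl le_rfl
    have e2 : H μ h l = H μ h' l := H_congr (fun i hi => agree hD hD' hP hP' i hi hi) e1
    have := shell_close hD.2.1 (e2 ▸ hD'.2.2)
    have := shell_close hD'.2.1 (e2 ▸ hD.2.2)
    omega

lemma not_lt_of_odd {μ : ℕ → ℝ} {n : ℕ} {h h' : ℕ → ℕ} {k k' : ℕ} (hD : InD μ h k)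
    (hD' : InD μ h' k') (hP : Pre n h k) (hP' : Pre n h' k') (hn : n ≤ k)
    (hp : h k / 3 % 2 = 1) : ¬ k < k' := by
  intro hl
  have e1 := sign_eq hD hD' le_rfl hl.le
  have e2 : H μ h k = H μ h' k := H_congr (fun i hi => agree hD hD' hP hP' i hi (by omega)) e1
  obtain ⟨b1, b2⟩ := (sh_pos ((hD'.pos hl).trans_le (H_succ μ h' k))).2 ((hP' k hl).2 hn).1
  rw [← e2] at b1 b2
  have := shell_close' hD.2.1 b2.le (Or.inr b2)
  have := shell_close' b1.le hD.2.2 (Or.inl b1)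
  have := ((hP' k hl).2 hn).2
  omega

/-- the process started at level `n` survives up to level `k` -/
def Surv (μ : ℕ → ℝ) (n k : ℕ) : Prop := ∃ h : ℕ → ℕ, Pre n h k ∧
  (∀ l < k, h l % 3 = 0 → μ l = 0) ∧
  0 < G (fun l => h l / 3) (fun l => mar (h l % 3) (μ l)) k ∧
  G (fun l => h l / 3) (fun l => mar (h l % 3) (μ l)) k ≤ 1

lemma surv_zero (μ : ℕ → ℝ) (n : ℕ) : Surv μ n 0 :=
  ⟨fun _ => 0, fun _ h => absurd h (by omega), fun _ h => absurd h (by omega), one_pos, le_rfl⟩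

lemma exists_shell {t : ℝ} (h0 : 0 < t) (h1 : t ≤ 1) : ∃ j, j ≠ 0 ∧ rr j ≤ t ∧ t ≤ 2 * rr j ∧
    (j % 2 = 1 ∨ (rr j < t ∧ t < 2 * rr j)) := by
  obtain ⟨j, a1, a2⟩ := exists_nat_pow_near_of_lt_one h0 h1 (show (0 : ℝ) < 1 / 2 by norm_num)
    (by norm_num)
  have b1 : rr (j + 1) < t := a1
  have b2 : t ≤ rr j := a2
  have := rr_succ j
  rcases Nat.mod_two_eq_zero_or_one j with hj | hj
  · exact ⟨j + 1, by omega, b1.le, by linarith, Or.inl (by omega)⟩
  · rcases b2.lt_or_eq with b2 | b2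
    · exact ⟨j + 1, by omega, b1.le, by linarith, Or.inr ⟨b1, by linarith⟩⟩
    · exact ⟨j, by omega, b2.ge, by linarith [rr_pos j], Or.inl hj⟩

lemma surv_step {μ : ℕ → ℝ} {n k : ℕ} (hS : Surv μ n k) : Surv μ n (k + 1) ∨
    ∃ h, Pre n h k ∧ n ≤ k ∧ h k / 3 % 2 = 1 ∧ InD μ h k := by
  obtain ⟨h, a1, a2, a3, a4⟩ := hS
  obtain ⟨s, hs, s1, s2⟩ : ∃ s < 3, (s = 0 → μ k = 0) ∧ 0 < mar s (μ k) := by
    rcases lt_trichotomy (μ k) 0 with h | h | h
    · exact ⟨2, by omega, by omega, by simpa [mar] using h⟩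
    · exact ⟨0, by omega, fun _ => h, by simp [mar]⟩
    · exact ⟨1, by omega, by omega, by simpa [mar] using h⟩
  set t := min (G (fun l => h l / 3) (fun l => mar (h l % 3) (μ l)) k) (mar s (μ k)) with ht
  have t0 : 0 < t := lt_min a3 s2
  have t1 : t ≤ 1 := (min_le_left _ _).trans a4
  have key : ∀ j, ∃ h' : ℕ → ℕ, Pre n h' k ∧ (∀ l ≤ k, h' l % 3 = 0 → μ l = 0) ∧ h' k / 3 = j ∧
      H μ h' k = t := by
    intro j
    have e1 : ∀ l < k, Function.update h k (3 * j + s) l = h l :=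
      fun l hl => Function.update_of_ne hl.ne _ _
    have e2 : Function.update h k (3 * j + s) k = 3 * j + s := Function.update_self _ _ _
    refine ⟨Function.update h k (3 * j + s), fun l hl => by rw [e1 l hl]; exact a1 l hl,
      fun l hl => ?_, by omega, ?_⟩
    · rcases hl.lt_or_eq with hl | rfl
      · rw [e1 l hl]; exact a2 l hl
      · intro h0; exact s1 (by omega)
    · unfold H
      rw [ht, show Function.update h k (3 * j + s) k % 3 = s by omega,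
        G_congr k (j' := fun l => h l / 3) (a' := fun l => mar (h l % 3) (μ l))
        fun l hl => by simp only [e1 l hl, and_self]]
  have key2 : ∀ j, (k < n → j = 0) → (n ≤ k → j ≠ 0 ∧ j % 2 = 0) → 0 < sh j t →
      Surv μ n (k + 1) := by
    intro j j1 j2 j3
    obtain ⟨h', b1, b2, b3, b4⟩ := key j
    have e : G (fun l => h' l / 3) (fun l => mar (h' l % 3) (μ l)) (k + 1) = sh j t := by
      rw [← b3, ← b4]; rfl
    refine ⟨h', fun l hl => ?_, fun l hl => b2 l (by omega), e ▸ j3, e ▸ (sh_le t0.le).trans t1⟩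
    rcases (Nat.lt_succ_iff.1 hl).lt_or_eq with hl | rfl
    · exact b1 l hl
    · rw [b3]; exact ⟨j1, j2⟩
  rcases lt_or_ge k n with hn | hn
  · exact Or.inl (key2 0 (fun _ => rfl) (fun h => absurd h (by omega)) (by simpa [sh] using t0))
  · obtain ⟨j, j0, j1, j2, j3⟩ := exists_shell t0 t1
    rcases Nat.mod_two_eq_zero_or_one j with hj | hj
    · obtain ⟨j4, j5⟩ := j3.resolve_left (by omega)
      refine Or.inl (key2 j (fun h => absurd h (by omega)) (fun _ => ⟨j0, hj⟩) ?_)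
      simp only [sh, if_neg j0, lt_min_iff, lt_max_iff]
      exact ⟨Or.inl (by linarith), Or.inl (by linarith)⟩
    · obtain ⟨h', b1, b2, b3, b4⟩ := key j
      exact Or.inr ⟨h', b1, hn, by rw [b3]; exact hj, b2, by rw [b3, b4]; exact j1,
        by rw [b3, b4]; exact j2⟩

/-- validity of a history, in the two cases -/
def Val (b n l : ℕ) (h : ℕ → ℕ) (k : ℕ) : Prop :=
  (b = 0 ∧ Pre l h k ∧ l ≤ k ∧ h k / 3 % 2 = 1) ∨
  (b = 1 ∧ Pre n h k ∧ k = l + n ∧ h k / 3 ≠ 0 ∧ h k / 3 % 2 = 0)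

lemma val_unique {μ : ℕ → ℝ} {b n l : ℕ} {h h' : ℕ → ℕ} {k k' : ℕ} (hV : Val b n l h k)
    (hV' : Val b n l h' k') (hD : InD μ h k) (hD' : InD μ h' k') :
    k = k' ∧ ∀ i ≤ k, h i = h' i := by
  rcases hV with ⟨a1, a2, a3, a4⟩ | ⟨a1, a2, a3, -, a4⟩ <;>
    rcases hV' with ⟨b1, b2, b3, b4⟩ | ⟨b1, b2, b3, -, b4⟩
  · have := not_lt_of_odd hD hD' a2 b2 a3 a4
    have := not_lt_of_odd hD' hD b2 a2 b3 b4
    obtain rfl : k = k' := by omega
    exact ⟨rfl, last_eq hD hD' a2 b2 (by omega)⟩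
  · omega
  · omega
  · obtain rfl : k = k' := by omega
    exact ⟨rfl, last_eq hD hD' a2 b2 (by omega)⟩

lemma val_exists (μ : ℕ → ℝ) : ∃ b n, ∀ l, ∃ h k, Val b n l h k ∧ InD μ h k := by
  by_cases hc : ∃ n, ∀ k, Surv μ n k
  · obtain ⟨n, hn⟩ := hc
    refine ⟨1, n, fun l => ?_⟩
    obtain ⟨h, a1, a2, a3, -⟩ := hn (l + n + 1)
    have b1 := (a1 (l + n) (by omega)).2 (by omega)
    have b2 := (sh_pos (t := H μ h (l + n)) a3).2 b1.1
    exact ⟨h, l + n, Or.inr ⟨rfl, fun i hi => a1 i (by omega), rfl, b1⟩,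
      fun i hi => a2 i (by omega), b2.1.le, b2.2.le⟩
  · push Not at hc
    refine ⟨0, 0, fun l => ?_⟩
    by_contra hcon
    obtain ⟨k, hk⟩ := hc l
    refine hk ?_
    clear hk
    induction k with
    | zero => exact surv_zero μ l
    | succ k ih =>
      refine (surv_step ih).resolve_right ?_
      rintro ⟨h, a1, a2, a3, a4⟩
      exact hcon ⟨h, k, Or.inl ⟨rfl, a1, a2, a3⟩, a4⟩

end Pool.Agent.H490Z.GC
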